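import Pool.Agent.X328.TAU.Stm
import Pool.Agent.Results.MP_9b502d_nt.LargeCriticalHeight

/-!
# Project TAU, second part: conjugation (from the normal form to all maps)
-/

set_option autoImplicit false

namespace Pool.Agent.X328.TAU

open Finset Polynomial
open Pool.Agent.X328.GN (Ix nu de hm it wrA)
open Pool.Agent.Results.MP_9b502d_nt.LargeCriticalHeight (Conjugate)

universe u v w

noncomputable section

/-- the multiplier of the finite fixed point `x` of `P / R` -/
def mlt {K : Type*} [Field K] (P R : K[X]) (x : K) : K := (wrA P R).eval x / R.eval x ^ 2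

/-- the multipliers of the finite fixed points of `P / R` -/
def spec {K : Type*} [Field K] (P R : K[X]) : Multiset K := (P - X * R).roots.map (mlt P R)

/-- **TR**: conjugacy is an equivalence relation (this is all that is needed) -/
def S_TR : Prop := ∀ (K : Type u) [Field K] (d : ℕ) (p q p' q' u w : K[X]), p.natDegree ≤ d →
  q.natDegree ≤ d → p'.natDegree ≤ d → q'.natDegree ≤ d → u.natDegree ≤ d → w.natDegree ≤ d →
  Conjugate p q u w d → Conjugate p' q' u w d → Conjugate p q p' q' d

/-- **C2**: the second iterates are conjugate. (`it d p q 2 = (hm d p p' q', hm d q p' q')` with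
`(p', q') = (hm d p X 1, hm d q X 1) = (p, q)`; associativity of `hm`; constant `s ^ d * s`.) -/
def S_C2 : Prop := ∀ (K : Type u) [Field K] (d : ℕ) (p q u w : K[X]), 1 ≤ d → p.natDegree ≤ d →
  q.natDegree ≤ d → u.natDegree ≤ d → w.natDegree ≤ d → Conjugate p q u w d →
  Conjugate (it d p q 2).1 (it d p q 2).2 (it d u w 2).1 (it d u w 2).2 (d ^ 2)

/-- **SP**: the spectrum of `P / R` (all fixed points finite, i.e. `P - X R` has degree `D + 1`) and of its
conjugate `u / w` with `∞` fixed (`u` monic, multiplier of `∞` the coefficient of `X ^ (D - 1)` in `w`).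
Proof: `∑ (u - X w)_i (a X + b) ^ i (c X + e) ^ (D + 1 - i) = s (a e - b c) (P - X R)`; if
`u - X w = l ∏ (X - r_i)` (`D` factors) this is `l (c X + e) ∏ ((a X + b) - r_i (c X + e))`, so `c ≠ 0`,
`a ≠ r_i c`, the roots of `P - X R` are `- e / c` and `(e r_i - b) / (a - r_i c)`; differentiate the two
equations of `Conjugate` for the equality of the multipliers. -/
def S_SP : Prop := ∀ (K : Type u) [Field K] [CharZero K] [IsAlgClosed K] (D : ℕ), 2 ≤ D →
  ∀ P R u w : K[X], IsCoprime P R → max P.natDegree R.natDegree = D →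
  (P - X * R).natDegree = D + 1 → IsCoprime u w → u.Monic → u.natDegree = D → w.natDegree < D →
  (u - X * w).natDegree = D → Conjugate P R u w D →
  spec P R = w.coeff (D - 1) ::ₘ spec u w

/-- **QI**: the multiplier of `∞` for the second iterate -/
def S_QI : Prop := ∀ (K : Type u) [Field K] (d : ℕ) (hd : 2 ≤ d) (κ : Ix d → K),
  (Q2 d κ).coeff (d ^ 2 - 1) = la d hd κ ^ 2 ∧ (de d κ).coeff (d - 1) = la d hd κ

/-- **INF2**: a polynomial which excludes the periodic points at `∞` (for the second iterate, and the first):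
take the coefficient of degree `d ^ 2 + 1` of `P - X R`, times that of degree `d + 1` of `p - X q`; not
zero for `p = 0`, `q = X ^ d + 1` say. -/
def S_INF2 : Prop := ∀ d : ℕ, 2 ≤ d → ∃ E : MvPolynomial (Fin (d + 1) ⊕ Fin (d + 1)) ℤ, E ≠ 0 ∧
  ∀ (K : Type u) [Field K] [CharZero K] (p q : K[X]), p.natDegree ≤ d → q.natDegree ≤ d →
    MvPolynomial.aeval (Sum.elim (fun i : Fin (d + 1) => p.coeff i)
      (fun i : Fin (d + 1) => q.coeff i)) E ≠ 0 →
    (p - X * q).natDegree = d + 1 ∧ ((it d p q 2).1 - X * (it d p q 2).2).natDegree = d ^ 2 + 1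

end

end Pool.Agent.X328.TAU
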