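import Pool.Agent.X328.GN.Stm

/-!
# Project TAU (MP_740d3f_ag): the multipliers of periods one and two determine a generic rational
map up to finitely many choices

As project GN with `2` instead of `3`, and the multiplier of the fixed point `∞`, which is the parameter
`t (Sum.inr (d - 2))` (the coefficient of `X ^ (d - 1)` in `de`).
-/

set_option autoImplicit false

namespace Pool.Agent.X328.TAU

open Finset Polynomial
open Pool.Agent.X328.GN (Ix nu de hm it wrA)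

universe u v w

noncomputable section

section

variable {A : Type*} [CommRing A]

/-- numerator and denominator of the second iterate of `nu / de` -/
def P2 (d : ℕ) (t : Ix d → A) : A[X] := (it d (nu d t) (de d t) 2).1
def Q2 (d : ℕ) (t : Ix d → A) : A[X] := (it d (nu d t) (de d t) 2).2

/-- its fixed points -/
def Ph2 (d : ℕ) (t : Ix d → A) : A[X] := P2 d t - X * Q2 d t

/-- the resultant in `X` of `Ph2` and `Y Q2 ^ 2 - wrA P2 Q2`, a polynomial in `Y` -/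
def chi2 (d : ℕ) (t : Ix d → A) : A[X] :=
  resultant ((Ph2 d t).map C)
    (C X * ((Q2 d t).map C) ^ 2 - (wrA (P2 d t) (Q2 d t)).map C : A[X][X]) (d ^ 2) (2 * d ^ 2)

/-- the last parameter, the multiplier of `∞` -/
def la (d : ℕ) (hd : 2 ≤ d) (t : Ix d → A) : A := t (Sum.inr ⟨d - 2, by omega⟩)

end

/-- the multiplier of the fixed point `x` of the second iterate -/
def ml2 {K : Type*} [Field K] (d : ℕ) (t : Ix d → K) (x : K) : K :=
  (wrA (P2 d t) (Q2 d t)).eval x / (Q2 d t).eval x ^ 2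

/-- the data: the normalised coefficients of `chi2` and the multiplier of `∞` -/
def vals {K : Type*} [Field K] (d : ℕ) (hd : 2 ≤ d) (t : Ix d → K) : Option (Fin (d ^ 2 + 1)) → K
  | none => la d hd t
  | some j => (chi2 d t).coeff j / (chi2 d t).coeff (d ^ 2)

/-- **CHI** (adapt `Pool.Agent.X115.GN.CHI`) -/
def S_CHI : Prop := (∀ (A : Type u) (A' : Type v) [CommRing A] [CommRing A'] (φ : A →+* A') (d : ℕ)
    (t : Ix d → A), (P2 d t).map φ = P2 d (fun i => φ (t i)) ∧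
    (Q2 d t).map φ = Q2 d (fun i => φ (t i)) ∧ (Ph2 d t).map φ = Ph2 d (fun i => φ (t i)) ∧
    (chi2 d t).map φ = chi2 d (fun i => φ (t i))) ∧
  ∀ (K : Type u) [Field K] [CharZero K] (d : ℕ), 2 ≤ d → ∀ t : Ix d → K,
    IsCoprime (nu d t) (de d t) → (Ph2 d t).natDegree = d ^ 2 → (Ph2 d t).Splits →
    ∃ c : K, c ≠ 0 ∧ chi2 d t = C c * ((Ph2 d t).roots.map fun x => X - C (ml2 d t x)).prod

/-- **DIG** (adapt `Pool.Agent.X319.GN.DIG`): modulo `d ^ 2 - 1` the exponents `± j`, `± j d`, `1 ≤ j < d`, are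
different except that `d - 1 = - (d - 1) d` and `(d - 1) d = - (d - 1)`; so all coefficients vanish except
that only `a_(d-2) + b_(d-2) = 0` for the last ones (index `j.1 = d - 2`, exponent `d - 1`). -/
def S_DIG : Prop := ∀ (F : Type u) [Field F] [CharZero F] (d : ℕ), 2 ≤ d →
  (X ^ (d ^ 2) - X : F[X]).Splits → ∀ a b : Fin (d - 1) → F,
  (∀ ζ : F, ζ ^ (d ^ 2 - 1) = 1 → ∑ i ∈ range 2, (∑ j, a j * (ζ ^ d ^ i) ^ (j.1 + 1) +
    ∑ j, b j * ((ζ ^ d ^ i) ^ (j.1 + 1))⁻¹) = 0) →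
  (∀ j, a j = 0 ∧ b j = 0 ∨ j.1 + 2 = d ∧ a j + b j = 0)

/-- **RIG** from IT and DIG (adapt `Pool.Agent.X32.GN.Fin`): the additional hypothesis `δ (la) = 0` gives
`a_(d-2) = 0` in DIG, hence `b_(d-2) = 0`. -/
def S_RIG : Prop := ∀ (E : Type u) [Field E] [CharZero E] (O : ValuationSubring E) (d : ℕ)
  (hd : 2 ≤ d), ∀ t : Ix d → E, (∀ n : ℕ, n ≠ 0 → (n : E)⁻¹ ∈ O) → (∀ i, O.valuation (t i) < 1) →
  (Ph2 d t).Splits → ∀ δ : Derivation ℤ E E, δ (la d hd t) = 0 →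
  (∀ x, (Ph2 d t).eval x = 0 → δ (ml2 d t x) = 0) → ∀ i, δ (t i) = 0

/-- **ALG** from RIG and CHI (adapt `Pool.Agent.X169.GN.ALG`) -/
def S_ALG : Prop := ∀ (d : ℕ) (hd : 2 ≤ d),
  let R := MvPolynomial (Ix d) ℚ
  let c : R[X] := chi2 d (fun i => (MvPolynomial.X i : R))
  c.coeff (d ^ 2) ≠ 0 ∧ (Ph2 d (fun i => (MvPolynomial.X i : R))).coeff (d ^ 2) ≠ 0 ∧
  ∀ i, IsAlgebraic (IntermediateField.adjoin ℚ (Set.range
      (vals d hd (fun i => algebraMap R (FractionRing R) (MvPolynomial.X i)))))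
    (algebraMap R (FractionRing R) (MvPolynomial.X i))

/-- **SPEC** from ALG and CHI (adapt `Pool.Agent.X60.GN.Spec`) -/
def S_SPEC : Prop := ∀ (d : ℕ) (hd : 2 ≤ d), ∃ (D : MvPolynomial (Ix d) ℚ) (M : ℕ)
  (G : Ix d → ℕ → MvPolynomial (Option (Fin (d ^ 2 + 1))) ℚ), D ≠ 0 ∧
  ∀ (K : Type u) [Field K] [CharZero K] (κ : Ix d → K), MvPolynomial.aeval κ D ≠ 0 →
    (chi2 d κ).coeff (d ^ 2) ≠ 0 ∧ (Ph2 d κ).coeff (d ^ 2) ≠ 0 ∧
    ∀ i, (∃ m ≤ M, MvPolynomial.aeval (vals d hd κ) (G i m) ≠ 0) ∧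
      ∑ m ∈ range (M + 1), MvPolynomial.aeval (vals d hd κ) (G i m) * κ i ^ m = 0

end

end Pool.Agent.X328.TAU
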