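import Mathlib
import Pool.Agent.X328.TAU.Stm
import Pool.Agent.X328.GN.It
import Pool.Agent.X121.GN.Gen

/-! # Project TAU: the final theorem -/

set_option autoImplicit false

namespace Pool.Agent.X328.TAU

open Finset Polynomial
open Pool.Agent.X328.GN (Ix nu de hm it wrA S_IT)

universe u v w

theorem natDegree_Ph2 {K : Type u} [Field K] (d : ℕ) (hd : 2 ≤ d) (κ : Ix d → K)
    (hco : IsCoprime (nu d κ) (de d κ)) (h2 : (Ph2 d κ).coeff (d ^ 2) ≠ 0) :
    (Ph2 d κ).natDegree = d ^ 2 := by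
  obtain ⟨-, -, g2, g3, -⟩ := Pool.Agent.X328.GN.It.it_all K d hd (nu d κ) (de d κ) hco
    (Pool.Agent.X121.GN.nu_monic d hd κ).1 (Pool.Agent.X121.GN.nu_monic d hd κ).2
    (Pool.Agent.X121.GN.de_deg d hd κ) 2
  have g2' : (P2 d κ).natDegree = d ^ 2 := g2
  have g3' : (Q2 d κ).natDegree < d ^ 2 := g3
  refine le_antisymm ?_ (le_natDegree_of_ne_zero h2)
  refine (natDegree_sub_le _ _).trans (max_le g2'.le ?_)
  refine natDegree_mul_le.trans ?_
  rw [natDegree_X]
  omega

theorem fin (hCHI : S_CHI.{u, v}) (hSPEC : S_SPEC.{u}) (d : ℕ) (hd : 2 ≤ d) :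
    ∃ D : MvPolynomial (Ix d) ℚ, D ≠ 0 ∧ ∃ N : ℕ, ∀ (K : Type u) [Field K] [CharZero K]
      [IsAlgClosed K] (lam : K) (S : Multiset K),
      {κ : Ix d → K | IsCoprime (nu d κ) (de d κ) ∧ MvPolynomial.aeval κ D ≠ 0 ∧
        la d hd κ = lam ∧ (Ph2 d κ).roots.map (ml2 d κ) = S}.encard ≤ (N : ℕ∞) := by
  classical
  obtain ⟨D, M, G, hD, h⟩ := hSPEC d hd
  refine ⟨D, hD, M ^ Fintype.card (Ix d), ?_⟩
  intro K _ _ _ lam S
  set W : K[X] := (S.map fun y => (X - C y : K[X])).prod with hW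
  set V : Option (Fin (d ^ 2 + 1)) → K := fun o => o.elim lam
    (fun j => W.coeff j / W.coeff (d ^ 2)) with hV
  set R : Ix d → K[X] := fun i => ∑ m ∈ range (M + 1),
    C (MvPolynomial.aeval V (G i m)) * X ^ m with hR
  have hsub : {κ : Ix d → K | IsCoprime (nu d κ) (de d κ) ∧ MvPolynomial.aeval κ D ≠ 0 ∧
        la d hd κ = lam ∧ (Ph2 d κ).roots.map (ml2 d κ) = S} ⊆
      (Fintype.piFinset fun i => (R i).roots.toFinset : Finset (Ix d → K)) := by
    rintro κ ⟨hco, hDκ, hlam, hS⟩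
    obtain ⟨h1, h2, h3⟩ := h K κ hDκ
    obtain ⟨c, hc, hprod⟩ := hCHI.2 K d hd κ hco (natDegree_Ph2 d hd κ hco h2)
      (IsAlgClosed.splits _)
    have hprod' : chi2 d κ = C c * W := by
      rw [hprod, hW, ← hS, Multiset.map_map]
      rfl
    have hvals : vals d hd κ = V := by
      funext o
      cases o with
      | none => exact hlam
      | some j =>
        show (chi2 d κ).coeff j / (chi2 d κ).coeff (d ^ 2) = W.coeff j / W.coeff (d ^ 2)
        rw [hprod', coeff_C_mul, coeff_C_mul, mul_div_mul_left _ _ hc]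
    rw [Finset.mem_coe, Fintype.mem_piFinset]
    intro i
    obtain ⟨⟨m0, hm0, hne⟩, hsum⟩ := h3 i
    rw [hvals] at hne
    simp only [hvals] at hsum
    rw [Multiset.mem_toFinset, mem_roots']
    constructor
    · intro h0
      apply hne
      have h4 := congrArg (fun p : K[X] => p.coeff m0) h0
      simp only [hR, finsetSum_coeff, coeff_C_mul, coeff_X_pow, coeff_zero, mul_ite, mul_one,
        mul_zero] at h4
      rw [Finset.sum_ite_eq, if_pos (Finset.mem_range.2 (by omega))] at h4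
      exact h4
    · rw [IsRoot, hR]
      simp only [eval_finsetSum, eval_mul, eval_C, eval_pow, eval_X]
      exact hsum
  refine (Set.encard_le_encard hsub).trans ?_
  rw [Set.encard_coe_eq_coe_finsetCard, Fintype.card_piFinset]
  have hle : ∏ i, (R i).roots.toFinset.card ≤ ∏ _i : Ix d, M := by
    refine Finset.prod_le_prod' fun i _ => ?_
    refine (Multiset.toFinset_card_le _).trans ((card_roots' _).trans ?_)
    refine natDegree_sum_le_of_forall_le _ _ fun m hm => ?_
    refine (natDegree_C_mul_X_pow_le _ _).trans ?_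
    have := Finset.mem_range.1 hm
    omega
  rw [Finset.prod_const, Finset.card_univ] at hle
  exact_mod_cast hle

end Pool.Agent.X328.TAU
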