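import Mathlib
import Pool.Agent.X328.TAU.Fin
import Pool.Agent.X328.TAU.Stm2
import Pool.Agent.X328.GN.Fin4
import Pool.Agent.X263.AL.Itx

/-! # Project TAU: all maps -/

set_option autoImplicit false

namespace Pool.Agent.X328.TAU

open Finset Polynomial
open Pool.Agent.X328.GN (Ix nu de hm it wrA S_IT S_NORM S_DEL kap ofc)
open Pool.Agent.Results.MP_9b502d_nt.LargeCriticalHeight (Conjugate)

universe u v w

/-- the second iterate -/
noncomputable def sec {K : Type*} [Field K] (d : ℕ) (f : K[X] × K[X]) : K[X] × K[X] :=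
  it d f.1 f.2 2

theorem fin2 (hfin : ∀ (d : ℕ) (hd : 2 ≤ d), ∃ D : MvPolynomial (Ix d) ℚ, D ≠ 0 ∧ ∃ N : ℕ,
      ∀ (K : Type u) [Field K] [CharZero K] [IsAlgClosed K] (lam : K) (S : Multiset K),
      {κ : Ix d → K | IsCoprime (nu d κ) (de d κ) ∧ MvPolynomial.aeval κ D ≠ 0 ∧
        la d hd κ = lam ∧ (Ph2 d κ).roots.map (ml2 d κ) = S}.encard ≤ (N : ℕ∞))
    (hSPEC : ∀ (d : ℕ), 2 ≤ d → ∃ D : MvPolynomial (Ix d) ℚ, D ≠ 0 ∧ ∀ (K : Type u) [Field K]
      [CharZero K] (κ : Ix d → K), MvPolynomial.aeval κ D ≠ 0 → (Ph2 d κ).coeff (d ^ 2) ≠ 0)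
    (hNORM : S_NORM.{u}) (hDEL : S_DEL.{u}) (hTR : S_TR.{u}) (hC2 : S_C2.{u}) (hSP : S_SP.{u})
    (hQI : S_QI.{u}) (hINF : S_INF2.{u}) (d : ℕ) (hd : 2 ≤ d) :
    ∃ Δ : MvPolynomial (Fin (d + 1) ⊕ Fin (d + 1)) ℤ, Δ ≠ 0 ∧
      (∀ (K : Type u) [Field K] [CharZero K] (p q : K[X]), p.natDegree ≤ d → q.natDegree ≤ d →
      MvPolynomial.aeval (Sum.elim (fun i : Fin (d + 1) => p.coeff i)
        (fun i : Fin (d + 1) => q.coeff i)) Δ ≠ 0 →
      (p - X * q).natDegree = d + 1 ∧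
        ((it d p q 2).1 - X * (it d p q 2).2).natDegree = d ^ 2 + 1) ∧
      ∃ N : ℕ, ∀ (K : Type u) [Field K]
      [CharZero K] [IsAlgClosed K] (f : Fin (N + 1) → K[X] × K[X]),
      (∀ i, IsCoprime (f i).1 (f i).2 ∧ max (f i).1.natDegree (f i).2.natDegree = d ∧
        MvPolynomial.aeval (Sum.elim (fun j : Fin (d + 1) => (f i).1.coeff j)
          (fun j : Fin (d + 1) => (f i).2.coeff j)) Δ ≠ 0) →
      (∀ i, spec (f i).1 (f i).2 = spec (f 0).1 (f 0).2 ∧
        spec (sec d (f i)).1 (sec d (f i)).2 = spec (sec d (f 0)).1 (sec d (f 0)).2) →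
      ∃ i j, i ≠ j ∧ Conjugate (f i).1 (f i).2 (f j).1 (f j).2 d := by
  classical
  obtain ⟨D₁, hD₁, N', hN'⟩ := hfin d hd
  obtain ⟨D₂, hD₂, hD₂'⟩ := hSPEC d hd
  obtain ⟨m₀, D, hm₀, hDD⟩ := Pool.Agent.X328.GN.int_poly (D₁ * D₂)
  have hD : D ≠ 0 := by
    rintro rfl
    rw [map_zero] at hDD
    have h1 : (MvPolynomial.C (m₀ : ℚ) : MvPolynomial (Ix d) ℚ) ≠ 0 := by
      rw [Ne, MvPolynomial.C_eq_zero]
      exact_mod_cast hm₀
    exact (mul_ne_zero h1 (mul_ne_zero hD₁ hD₂)) hDD.symm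
  obtain ⟨Δ₀, hΔ₀, hΔ₀'⟩ := hDEL d hd D hD
  obtain ⟨E, hE, hE'⟩ := hINF d hd
  refine ⟨Δ₀ * E, mul_ne_zero hΔ₀ hE, ?_, (d + 1) * N', ?_⟩
  · intro K _ _ p q hp hq hΔ
    rw [map_mul] at hΔ
    exact hE' K p q hp hq (right_ne_zero_of_mul hΔ)
  intro K _ _ _ f hf hs
  -- the normal forms
  have key : ∀ i, ∃ κ : Ix d → K, IsCoprime (nu d κ) (de d κ) ∧ MvPolynomial.aeval κ D₁ ≠ 0 ∧
      Conjugate (f i).1 (f i).2 (nu d κ) (de d κ) d ∧
      la d hd κ ∈ spec (f 0).1 (f 0).2 ∧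
      (Ph2 d κ).roots.map (ml2 d κ) =
        (spec (sec d (f 0)).1 (sec d (f 0)).2).erase (la d hd κ ^ 2) := by
    intro i
    obtain ⟨hco, hmax, hΔ⟩ := hf i
    obtain ⟨hs1, hs2⟩ := hs i
    set p := (f i).1 with hp
    set q := (f i).2 with hq
    have hpd : p.natDegree ≤ d := hmax ▸ le_max_left _ _
    have hqd : q.natDegree ≤ d := hmax ▸ le_max_right _ _
    rw [map_mul] at hΔ
    obtain ⟨hΔ1, hΔ2⟩ := mul_ne_zero_iff.1 hΔ
    have eo1 := Pool.Agent.X328.GN.ofc_coeff d p hpd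
    have eo2 := Pool.Agent.X328.GN.ofc_coeff d q hqd
    obtain ⟨x, y, z, hxy, hyz, hxz, hx, hy, hz, hDK⟩ := hΔ₀' K (fun j => p.coeff j)
      (fun j => q.coeff j) (by rw [eo1, eo2]; exact hco) hΔ1
    rw [eo1, eo2] at hx hy hz hDK
    obtain ⟨hcop, hcj⟩ := hNORM K d hd p q hco hmax x y z hxy hyz hxz hx hy hz
    set κ := kap d p q x y z with hκ
    rw [Pool.Agent.X328.GN.aeval_int (D₁ * D₂) D m₀ hDD, map_mul] at hDK
    obtain ⟨hDK1, hDK2⟩ := mul_ne_zero_iff.1 (right_ne_zero_of_mul hDK)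
    have hPh := hD₂' K κ hDK2
    obtain ⟨hmon, hnud⟩ := Pool.Agent.X121.GN.nu_monic d hd κ
    have hded := Pool.Agent.X121.GN.de_deg d hd κ
    have hmaxκ : max (nu d κ).natDegree (de d κ).natDegree = d := by
      rw [hnud]
      exact max_eq_left hded.le
    obtain ⟨hn1, hn2⟩ := hE' K p q hpd hqd hΔ2
    obtain ⟨i1, i2, i3, i4, -⟩ := Pool.Agent.X328.GN.It.it_all K d hd _ _ hcop hmon hnud hded 2
    have i1' : IsCoprime (P2 d κ) (Q2 d κ) := i1
    have i2' : (P2 d κ).Monic := i2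
    have i3' : (P2 d κ).natDegree = d ^ 2 := i3
    have i4' : (Q2 d κ).natDegree < d ^ 2 := i4
    obtain ⟨q1, q2⟩ := hQI K d hd κ
    have hd2 : 2 ≤ d ^ 2 := by nlinarith
    have hPhd := natDegree_Ph2 d hd κ hcop hPh
    -- the second iterate
    obtain ⟨j1, j2, -⟩ := Pool.Agent.X263.AL.t_ITX K d (by omega) p q hco hmax 2
    have hsp2 := hSP K (d ^ 2) hd2 (it d p q 2).1 (it d p q 2).2 (P2 d κ) (Q2 d κ) j1 j2 hn2 i1' i2'
      i3' i4' hPhd (hC2 K d p q _ _ (by omega) hpd hqd hnud.le hded.le hcj)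
    rw [q1] at hsp2
    -- the multiplier at infinity is not one
    have hla : la d hd κ ≠ 1 := by
      intro h
      apply hPh
      show (P2 d κ - X * Q2 d κ).coeff (d ^ 2) = 0
      obtain ⟨e, he⟩ : ∃ e, d ^ 2 = e + 1 := ⟨d ^ 2 - 1, by omega⟩
      have h1 : (P2 d κ).coeff (d ^ 2) = 1 := by rw [← i3']; exact i2'
      rw [coeff_sub, h1, he, coeff_X_mul]
      have h2 : (Q2 d κ).coeff e = 1 := by
        have : e = d ^ 2 - 1 := by omega
        rw [this, q1, h, one_pow]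
      rw [h2, sub_self]
    have hdeg1 : (nu d κ - X * de d κ).natDegree = d := by
      refine le_antisymm ?_ ?_
      · refine (natDegree_sub_le _ _).trans (max_le hnud.le ?_)
        refine natDegree_mul_le.trans ?_
        rw [natDegree_X]
        omega
      · apply le_natDegree_of_ne_zero
        have h1 : (nu d κ).coeff d = 1 := by
          have h3 := hmon.coeff_natDegree
          rwa [hnud] at h3
        have h2 : (X * de d κ).coeff d = la d hd κ := by
          have h3 := coeff_X_mul (de d κ) (d - 1)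
          rwa [show d - 1 + 1 = d by omega, q2] at h3
        rw [coeff_sub, h1, h2, sub_ne_zero]
        exact hla.symm
    have hsp1 := hSP K d hd p q (nu d κ) (de d κ) hco hmax hn1 hcop hmon hnud hded hdeg1 hcj
    rw [q2] at hsp1
    refine ⟨κ, hcop, hDK1, hcj, ?_, ?_⟩
    · rw [← hs1, hsp1]
      exact Multiset.mem_cons_self _ _
    · rw [← hs2]
      show _ = (spec (it d p q 2).1 (it d p q 2).2).erase _
      rw [hsp2, Multiset.erase_cons_head]
      rfl
  choose κ hκ1 hκ2 hκ3 hκ4 hκ5 using key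
  set S1 := spec (f 0).1 (f 0).2 with hS1
  set S2 := spec (sec d (f 0)).1 (sec d (f 0)).2 with hS2
  have hcard : S1.toFinset.card ≤ d + 1 := by
    obtain ⟨-, hmax, -⟩ := hf 0
    have hpd : (f 0).1.natDegree ≤ d := (le_max_left _ _).trans hmax.le
    have hqd : (f 0).2.natDegree ≤ d := (le_max_right _ _).trans hmax.le
    refine (Multiset.toFinset_card_le _).trans ?_
    rw [hS1, spec, Multiset.card_map]
    refine (card_roots' _).trans ((natDegree_sub_le _ _).trans (max_le (by omega) ?_))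
    refine natDegree_mul_le.trans ?_
    rw [natDegree_X]
    omega
  set T : K → Set (Ix d → K) := fun lam => {κ : Ix d → K | IsCoprime (nu d κ) (de d κ) ∧
    MvPolynomial.aeval κ D₁ ≠ 0 ∧ la d hd κ = lam ∧
      (Ph2 d κ).roots.map (ml2 d κ) = S2.erase (lam ^ 2)} with hT
  have hun : ∀ s : Finset K, (⋃ lam ∈ s, T lam).encard ≤ ((s.card * N' : ℕ) : ℕ∞) := by
    intro s
    induction s using Finset.induction_on with
    | empty => simp
    | insert x s hx ih =>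
      rw [Finset.set_biUnion_insert, Finset.card_insert_of_notMem hx, add_mul, one_mul]
      refine (Set.encard_union_le _ _).trans ?_
      rw [add_comm]
      push_cast
      gcongr
      · exact_mod_cast ih
      · exact hN' K x _
  have hall : ∀ i, κ i ∈ ⋃ lam ∈ S1.toFinset, T lam := by
    intro i
    rw [Set.mem_iUnion₂]
    exact ⟨la d hd (κ i), Multiset.mem_toFinset.2 (hκ4 i), hκ1 i, hκ2 i, rfl, hκ5 i⟩
  have hT2 : (⋃ lam ∈ S1.toFinset, T lam).encard ≤ (((d + 1) * N' : ℕ) : ℕ∞) :=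
    (hun _).trans (by exact_mod_cast Nat.mul_le_mul_right _ hcard)
  by_contra hcon
  push Not at hcon
  have hinj : Function.Injective κ := by
    intro i j hij
    by_contra hne
    apply hcon i j hne
    obtain ⟨-, hm1, -⟩ := hf i
    obtain ⟨-, hm2, -⟩ := hf j
    have h3 := hκ3 j
    rw [← hij] at h3
    exact hTR K d _ _ _ _ _ _ ((le_max_left _ _).trans hm1.le) ((le_max_right _ _).trans hm1.le)
      ((le_max_left _ _).trans hm2.le) ((le_max_right _ _).trans hm2.le) (Pool.Agent.X121.GN.nu_monic d hd (κ i)).2.le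
      (Pool.Agent.X121.GN.de_deg d hd (κ i)).le (hκ3 i) h3
  have h1 : (Set.range κ).encard ≤ (((d + 1) * N' : ℕ) : ℕ∞) := by
    refine (Set.encard_le_encard ?_).trans hT2
    rintro _ ⟨i, rfl⟩
    exact hall i
  rw [← Set.image_univ, hinj.encard_image, Set.encard_univ] at h1
  rw [ENat.card_eq_coe_fintype_card, Fintype.card_fin] at h1
  have h2 : (d + 1) * N' + 1 ≤ (d + 1) * N' := by exact_mod_cast h1
  omega

lemma hm_X_one {K : Type*} [Field K] (d : ℕ) (F : K[X]) (h : F.natDegree ≤ d) :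
    hm d F X 1 = F := by
  unfold hm
  conv_rhs => rw [F.as_sum_range' (d + 1) (Nat.lt_succ_of_le h)]
  refine Finset.sum_congr rfl fun i _ => ?_
  rw [one_pow, mul_one, C_mul_X_pow_eq_monomial]

lemma it_two {K : Type*} [Field K] (d : ℕ) (p q : K[X]) (hp : p.natDegree ≤ d)
    (hq : q.natDegree ≤ d) : it d p q 2 = (hm d p p q, hm d q p q) := by
  have h1 : it d p q 1 = (p, q) := by
    show (hm d p X 1, hm d q X 1) = (p, q)
    rw [hm_X_one d p hp, hm_X_one d q hq]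
  show (hm d p (it d p q 1).1 (it d p q 1).2, hm d q (it d p q 1).1 (it d p q 1).2) = _
  rw [h1]

end Pool.Agent.X328.TAU
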