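import Mathlib
import Pool.Agent.X328.TAU.Stm2
import Pool.Agent.X328.TAU.Fin2
import Pool.Agent.X104.TAU.Alg

set_option autoImplicit false

namespace Pool.Agent.X328.TAU

open Finset Polynomial
open Pool.Agent.X328.GN (Ix nu de hm it wrA)
open Pool.Agent.Results.MP_9b502d_nt.LargeCriticalHeight (Conjugate)

universe u

theorem c2_sum {K : Type u} [Field K] {ι : Type*} (s : Finset ι) (d : ℕ) (F : ι → K[X])
    (P Q : K[X]) : hm d (∑ i ∈ s, F i) P Q = ∑ i ∈ s, hm d (F i) P Q :=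
  Pool.Agent.X104.TAU.hm_sum s d F P Q

theorem c2_add {K : Type u} [Field K] (d : ℕ) (F G P Q : K[X]) :
    hm d (F + G) P Q = hm d F P Q + hm d G P Q := Pool.Agent.X104.TAU.hm_add d F G P Q

theorem c2_C_mul {K : Type u} [Field K] (d : ℕ) (c : K) (F P Q : K[X]) :
    hm d (C c * F) P Q = C c * hm d F P Q := Pool.Agent.X104.TAU.hm_C_mul d c F P Q

theorem c2_mul {K : Type u} [Field K] {m n : ℕ} {F G : K[X]} (hF : F.natDegree ≤ m)
    (hG : G.natDegree ≤ n) (P Q : K[X]) : hm (m + n) (F * G) P Q = hm m F P Q * hm n G P Q :=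
  Pool.Agent.X104.TAU.hm_mul hF hG P Q

theorem c2_assoc {K : Type u} [Field K] (d : ℕ) (F : K[X]) (a b c e : K) (P Q : K[X]) :
    hm d (hm d F (C a * X + C b) (C c * X + C e)) P Q =
      hm d F (C a * P + C b * Q) (C c * P + C e * Q) :=
  Pool.Agent.X104.TAU.hm_assoc d F a b c e P Q

theorem c2_scale {K : Type u} [Field K] (d : ℕ) (F P Q : K[X]) (t : K) :
    hm d F (C t * P) (C t * Q) = C (t ^ d) * hm d F P Q := Pool.Agent.X104.TAU.hm_scale d F P Q t

theorem c2_pow {K : Type u} [Field K] (m i : ℕ) (F P Q : K[X]) (hF : F.natDegree ≤ m) :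
    hm (i * m) (F ^ i) P Q = hm m F P Q ^ i := by
  induction i with
  | zero =>
    rw [zero_mul, pow_zero, pow_zero]
    exact Pool.Agent.X104.TAU.hm_one_zero P Q
  | succ i ih =>
    rw [pow_succ, pow_succ, Nat.succ_mul, ← ih]
    exact c2_mul (natDegree_pow_le.trans (Nat.mul_le_mul_left _ hF)) hF P Q

theorem hm_comp {K : Type u} [Field K] (d : ℕ) (F u w P Q : K[X]) (hu : u.natDegree ≤ d)
    (hw : w.natDegree ≤ d) : hm (d ^ 2) (hm d F u w) P Q = hm d F (hm d u P Q) (hm d w P Q) := by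
  have e0 : hm d F u w = ∑ i ∈ range (d + 1), C (F.coeff i) * (u ^ i * w ^ (d - i)) :=
    sum_congr rfl fun i _ => by rw [mul_assoc]
  rw [e0, c2_sum]
  show _ = ∑ i ∈ range (d + 1), C (F.coeff i) * hm d u P Q ^ i * hm d w P Q ^ (d - i)
  refine sum_congr rfl fun i hi => ?_
  have hi' : i ≤ d := Nat.lt_succ_iff.mp (mem_range.mp hi)
  rw [c2_C_mul, mul_assoc]
  congr 1
  have e : d ^ 2 = i * d + (d - i) * d := by
    rw [← Nat.add_mul, Nat.add_sub_cancel' hi', sq]
  rw [e, c2_mul (natDegree_pow_le.trans (Nat.mul_le_mul_left _ hu))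
    (natDegree_pow_le.trans (Nat.mul_le_mul_left _ hw)), c2_pow _ _ _ _ _ hu,
    c2_pow _ _ _ _ _ hw]

theorem t_C2 : S_C2.{u} := by
  intro K _ d p q u w hd hp hq hu hw h
  rw [it_two d p q hp hq, it_two d u w hu hw]
  obtain ⟨a, b, c, e, hdet, s, hs, h1, h2⟩ := h
  have h1' : hm d u (C a * X + C b) (C c * X + C e) = C s * (C a * p + C b * q) := h1
  have h2' : hm d w (C a * X + C b) (C c * X + C e) = C s * (C c * p + C e * q) := h2
  have main : ∀ (F : K[X]) (x y : K), hm d F (C a * X + C b) (C c * X + C e) =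
      C s * (C x * p + C y * q) → hm (d ^ 2) (hm d F u w) (C a * X + C b) (C c * X + C e) =
      C (s ^ d * s) * (C x * hm d p p q + C y * hm d q p q) := by
    intro F x y hF
    rw [hm_comp d F u w _ _ hu hw, h1', h2', c2_scale, ← c2_assoc, hF, c2_C_mul, c2_add, c2_C_mul,
      c2_C_mul, C_mul, mul_assoc]
  refine ⟨a, b, c, e, hdet, s ^ d * s, mul_ne_zero (pow_ne_zero _ hs) hs, ?_, ?_⟩
  · exact main u a b h1'
  · exact main w c e h2'

end Pool.Agent.X328.TAU
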