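import Pool.Agent.X328.TAU.Stm

set_option autoImplicit false

namespace Pool.Agent.X328.TAU

open Finset Polynomial

universe u

lemma dg_lt (d : ℕ) (hd : 2 ≤ d) (j i : ℕ) (hj : j < d - 1) (hi : i < 2) :
    0 < (j + 1) * d ^ i ∧ (j + 1) * d ^ i < d ^ 2 - 1 := by
  have h1 : 0 < d ^ i := Nat.pos_of_ne_zero (pow_ne_zero _ (by omega))
  refine ⟨Nat.mul_pos (Nat.succ_pos _) h1, ?_⟩
  have h2 : d ^ i ≤ d ^ 1 := Nat.pow_le_pow_right (by omega) (by omega)
  have h3 : (j + 1) * d ^ i ≤ (d - 1) * d ^ 1 := Nat.mul_le_mul (by omega) h2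
  obtain ⟨e, rfl⟩ : ∃ e, d = e + 2 := ⟨d - 2, by omega⟩
  have h4 : (e + 2 - 1) * (e + 2) ^ 1 < (e + 2) ^ 2 - 1 := by
    have h5 : (e + 2) ^ 2 = (e + 1) * (e + 2) ^ 1 + e + 2 := by ring
    have h6 : e + 2 - 1 = e + 1 := by omega
    rw [h6]
    omega
  omega

lemma dg_eq (d : ℕ) (j j' i : ℕ) (hj : j < d - 1) (h : (j' + 1) * d ^ i = j + 1) :
    i = 0 ∧ j' = j := by
  rcases Nat.eq_zero_or_pos i with h0 | h0
  · subst h0
    simp at h
    exact ⟨rfl, h⟩
  · exfalso
    have h1 : d ^ 1 ≤ d ^ i := Nat.pow_le_pow_right (by omega) h0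
    have h2 : 1 * d ≤ (j' + 1) * d ^ i := Nat.mul_le_mul (by omega) (by simpa using h1)
    omega

lemma dg_ne (d : ℕ) (hd : 2 ≤ d) (j j' i : ℕ) (hj : j < d - 1) (hj' : j' < d - 1) (hi : i < 2)
    (h : (j' + 1) * d ^ i + (j + 1) = d ^ 2 - 1) : i = 1 ∧ j' + 2 = d ∧ j + 2 = d := by
  obtain ⟨e, rfl⟩ : ∃ e, d = e + 2 := ⟨d - 2, by omega⟩
  have hN : (e + 2) ^ 2 = (e + 1) * (e + 2) + (e + 1) + 1 := by ring
  have h3 : (e + 1) * (e + 2) = e * (e + 2) + (e + 2) := by ring
  have hi2 : i = 0 ∨ i = 1 := by omega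
  rcases hi2 with rfl | rfl
  · exfalso
    rw [pow_zero, mul_one] at h
    have h4 : 0 ≤ e * (e + 2) := Nat.zero_le _
    rw [hN, h3] at h
    have h5 : e * 2 ≤ e * (e + 2) := Nat.mul_le_mul_left _ (by omega)
    omega
  · rw [pow_one, hN] at h
    have : j' = e := by
      by_contra hne
      have h1 : j' + 1 ≤ e := by omega
      have h2 : (j' + 1) * (e + 2) ≤ e * (e + 2) := Nat.mul_le_mul_right _ h1
      omega
    subst this
    refine ⟨rfl, rfl, ?_⟩
    omega

theorem t_DIG : S_DIG.{u} := by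
  classical
  intro F _ _ d hd hs a b h
  set N := d ^ 2 - 1 with hN
  have hd3 : d ^ 2 = N + 1 := by
    have : 0 < d ^ 2 := Nat.pos_of_ne_zero (pow_ne_zero _ (by omega))
    omega
  have hN0 : N ≠ 0 := by
    have := (dg_lt d hd 0 0 (by omega) (by omega)).2
    omega
  let p : F[X] := ∑ i ∈ range 2, (∑ j : Fin (d - 1), C (a j) * X ^ ((j.1 + 1) * d ^ i) +
    ∑ j : Fin (d - 1), C (b j) * X ^ (N - (j.1 + 1) * d ^ i))
  have hdeg : p.natDegree < N := by
    have : p.natDegree ≤ N - 1 := by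
      refine natDegree_sum_le_of_forall_le _ _ ?_
      intro i hi
      have hi3 := Finset.mem_range.1 hi
      refine (natDegree_add_le _ _).trans (max_le ?_ ?_)
      · refine natDegree_sum_le_of_forall_le _ _ ?_
        intro j _
        refine (natDegree_C_mul_X_pow_le _ _).trans ?_
        have := (dg_lt d hd j.1 i j.2 hi3).2
        omega
      · refine natDegree_sum_le_of_forall_le _ _ ?_
        intro j _
        refine (natDegree_C_mul_X_pow_le _ _).trans ?_
        have := (dg_lt d hd j.1 i j.2 hi3).1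
        omega
    omega
  have hXN0 : (X ^ N - 1 : F[X]) ≠ 0 := by
    have := X_pow_sub_C_ne_zero (Nat.pos_of_ne_zero hN0) (1 : F)
    simpa using this
  have hfac : (X ^ (d ^ 2) - X : F[X]) = X * (X ^ N - 1) := by
    rw [hd3]; ring
  have hsplit : (X ^ N - 1 : F[X]).Splits := by
    refine hs.of_dvd ?_ ⟨X, by rw [hfac]; ring⟩
    rw [hfac]
    exact mul_ne_zero X_ne_zero hXN0
  have hsep : (X ^ N - 1 : F[X]).Separable := by
    have := separable_X_pow_sub_C (1 : F) (n := N) (by exact_mod_cast hN0) one_ne_zero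
    simpa using this
  have hcard : (X ^ N - 1 : F[X]).roots.toFinset.card = N := by
    rw [Multiset.toFinset_card_of_nodup (nodup_roots hsep), ← hsplit.natDegree_eq_card_roots]
    have := natDegree_X_pow_sub_C (n := N) (r := (1 : F))
    simpa using this
  have hp : p = 0 := by
    refine eq_zero_of_natDegree_lt_card_of_eval_eq_zero' p (X ^ N - 1 : F[X]).roots.toFinset ?_ ?_
    · intro ζ hζ
      rw [Multiset.mem_toFinset, mem_roots hXN0, IsRoot.def, eval_sub, eval_pow, eval_X, eval_one,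
        sub_eq_zero] at hζ
      have hz0 : ζ ≠ 0 := by
        rintro rfl
        rw [zero_pow hN0] at hζ
        exact zero_ne_one hζ
      rw [← h ζ hζ]
      simp only [p, eval_finsetSum, eval_add, eval_mul, eval_C, eval_pow, eval_X]
      refine Finset.sum_congr rfl fun i hi => ?_
      have hi3 := Finset.mem_range.1 hi
      congr 1
      · refine Finset.sum_congr rfl fun j _ => ?_
        rw [← pow_mul, mul_comm (d ^ i)]
      · refine Finset.sum_congr rfl fun j _ => ?_
        congr 1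
        rw [← pow_mul, mul_comm (d ^ i)]
        have h1 := (dg_lt d hd j.1 i j.2 hi3).2
        refine eq_inv_of_mul_eq_one_left ?_
        rw [← pow_add, Nat.sub_add_cancel (by omega), hζ]
    · rw [hcard]; exact hdeg
  have hcoef : ∀ n : ℕ, ∑ i ∈ range 2, (∑ j : Fin (d - 1), (if n = (j.1 + 1) * d ^ i then a j else 0) +
      ∑ j : Fin (d - 1), (if n = N - (j.1 + 1) * d ^ i then b j else 0)) = 0 := by
    intro n
    have : p.coeff n = 0 := by rw [hp, coeff_zero]
    simpa only [p, finsetSum_coeff, coeff_add, coeff_C_mul_X_pow] using this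
  intro j
  have h1 := hcoef (j.1 + 1)
  rw [Finset.sum_range_succ, Finset.sum_range_one] at h1
  have A0 : ∑ j' : Fin (d - 1), (if j.1 + 1 = (j'.1 + 1) * d ^ 0 then a j' else 0) = a j := by
    rw [Finset.sum_eq_single j]
    · simp
    · intro j' _ hj'
      rw [if_neg]
      intro h2
      exact hj' (Fin.ext (dg_eq d j.1 j'.1 0 j.2 h2.symm).2)
    · intro h2; exact absurd (Finset.mem_univ _) h2
  have B0 : ∑ j' : Fin (d - 1), (if j.1 + 1 = N - (j'.1 + 1) * d ^ 0 then b j' else 0) = 0 := by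
    refine Finset.sum_eq_zero fun j' _ => ?_
    rw [if_neg]
    intro h2
    have h4 := (dg_lt d hd j'.1 0 j'.2 (by omega)).2
    have h3 := dg_ne d hd j.1 j'.1 0 j.2 j'.2 (by omega) (by omega)
    omega
  have A1 : ∑ j' : Fin (d - 1), (if j.1 + 1 = (j'.1 + 1) * d ^ 1 then a j' else 0) = 0 := by
    refine Finset.sum_eq_zero fun j' _ => ?_
    rw [if_neg]
    intro h2
    have := (dg_eq d j.1 j'.1 1 j.2 h2.symm).1
    omega
  by_cases hj2 : j.1 + 2 = d
  · right
    refine ⟨hj2, ?_⟩
    have B1 : ∑ j' : Fin (d - 1), (if j.1 + 1 = N - (j'.1 + 1) * d ^ 1 then b j' else 0) = b j := by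
      rw [Finset.sum_eq_single j]
      · rw [if_pos]
        have h5 : (j.1 + 1) * d ^ 1 + (j.1 + 1) = N := by
          rw [hN]
          have h6 : ∀ x e : ℕ, x + 2 = e → e ^ 2 = (x + 1) * e ^ 1 + (x + 1) + 1 := by
            rintro x e rfl; ring
          have h7 := h6 j.1 d hj2
          omega
        omega
      · intro j' _ hj'
        rw [if_neg]
        intro h2
        have h4 := (dg_lt d hd j'.1 1 j'.2 (by omega)).2
        have h3 := dg_ne d hd j.1 j'.1 1 j.2 j'.2 (by omega) (by omega)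
        exact hj' (Fin.ext (by omega))
      · intro h2; exact absurd (Finset.mem_univ _) h2
    rw [A0, B0, A1, B1, add_zero, zero_add] at h1
    exact h1
  · left
    have B1 : ∑ j' : Fin (d - 1), (if j.1 + 1 = N - (j'.1 + 1) * d ^ 1 then b j' else 0) = 0 := by
      refine Finset.sum_eq_zero fun j' _ => ?_
      rw [if_neg]
      intro h2
      have h4 := (dg_lt d hd j'.1 1 j'.2 (by omega)).2
      have h3 := dg_ne d hd j.1 j'.1 1 j.2 j'.2 (by omega) (by omega)
      omega
    refine ⟨by rw [A0, B0, A1, B1, add_zero, add_zero, add_zero] at h1; exact h1, ?_⟩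
    have hjN := (dg_lt d hd j.1 0 j.2 (by omega)).2
    rw [pow_zero, mul_one] at hjN
    have h1' := hcoef (N - (j.1 + 1))
    rw [Finset.sum_range_succ, Finset.sum_range_one] at h1'
    have C0 : ∑ j' : Fin (d - 1), (if N - (j.1 + 1) = (j'.1 + 1) * d ^ 0 then a j' else 0) = 0 := by
      refine Finset.sum_eq_zero fun j' _ => ?_
      rw [if_neg]
      intro h2
      have h3 := dg_ne d hd j.1 j'.1 0 j.2 j'.2 (by omega) (by omega)
      omega
    have D0 : ∑ j' : Fin (d - 1), (if N - (j.1 + 1) = N - (j'.1 + 1) * d ^ 0 then b j' else 0) =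
        b j := by
      rw [Finset.sum_eq_single j]
      · simp
      · intro j' _ hj'
        rw [if_neg]
        intro h2
        have h4 := (dg_lt d hd j'.1 0 j'.2 (by omega)).2
        exact hj' (Fin.ext (dg_eq d j.1 j'.1 0 j.2 (by omega)).2)
      · intro h2; exact absurd (Finset.mem_univ _) h2
    have C1 : ∑ j' : Fin (d - 1), (if N - (j.1 + 1) = (j'.1 + 1) * d ^ 1 then a j' else 0) = 0 := by
      refine Finset.sum_eq_zero fun j' _ => ?_
      rw [if_neg]
      intro h2
      have h3 := dg_ne d hd j.1 j'.1 1 j.2 j'.2 (by omega) (by omega)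
      omega
    have D1 : ∑ j' : Fin (d - 1), (if N - (j.1 + 1) = N - (j'.1 + 1) * d ^ 1 then b j' else 0) =
        0 := by
      refine Finset.sum_eq_zero fun j' _ => ?_
      rw [if_neg]
      intro h2
      have h4 := (dg_lt d hd j'.1 1 j'.2 (by omega)).2
      have h3 := (dg_eq d j.1 j'.1 1 j.2 (by omega)).1
      omega
    rw [C0, D0, C1, D1, zero_add, add_zero, add_zero] at h1'
    exact h1'

end Pool.Agent.X328.TAU
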