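import Mathlib
import Pool.Agent.X328.TAU.Stm2
import Pool.Agent.X328.TAU.Fin2

set_option autoImplicit false

namespace Pool.Agent.X328.TAU

open Finset Polynomial
open Pool.Agent.X328.GN (Ix nu de hm it wrA)

universe u

theorem t_QI : S_QI.{u} := by
  intro K _ d hd κ
  obtain ⟨hmon, hnud⟩ := Pool.Agent.X121.GN.nu_monic d hd κ
  have hded := Pool.Agent.X121.GN.de_deg d hd κ
  have h2 : (de d κ).coeff (d - 1) = la d hd κ := by
    unfold de
    rw [coeff_add, coeff_C, if_neg (by omega), zero_add, finsetSum_coeff,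
      Finset.sum_eq_single ⟨d - 2, by omega⟩]
    · rw [coeff_C_mul_X_pow, if_pos (by show d - 1 = d - 2 + 1; omega)]
      rfl
    · intro i _ hi
      rw [coeff_C_mul_X_pow, if_neg]
      intro h
      apply hi
      apply Fin.ext
      show i.1 = d - 2
      omega
    · intro h
      exact absurd (mem_univ _) h
  refine ⟨?_, h2⟩
  have h3 : Q2 d κ = hm d (de d κ) (nu d κ) (de d κ) := by
    show (it d (nu d κ) (de d κ) 2).2 = _
    rw [it_two d _ _ hnud.le hded.le]
  rw [h3, hm, finsetSum_coeff, Finset.sum_eq_single (d - 1)]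
  · rw [show d - (d - 1) = 1 by omega, pow_one, mul_assoc, coeff_C_mul, h2]
    have h4 : ((nu d κ) ^ (d - 1)).natDegree = d * (d - 1) := by
      rw [hmon.natDegree_pow, hnud, mul_comm]
    have h5 : ((nu d κ) ^ (d - 1) * de d κ).coeff (d * (d - 1) + (d - 1)) =
        ((nu d κ) ^ (d - 1)).coeff (d * (d - 1)) * (de d κ).coeff (d - 1) :=
      coeff_mul_add_eq_of_natDegree_le h4.le (by omega)
    have h6 : ((nu d κ) ^ (d - 1)).coeff (d * (d - 1)) = 1 := by
      have := (hmon.pow (d - 1)).coeff_natDegree
      rwa [h4] at this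
    have h7 : d ^ 2 - 1 = d * (d - 1) + (d - 1) := by
      obtain ⟨e, rfl⟩ : ∃ e, d = e + 2 := ⟨d - 2, by omega⟩
      have : (e + 2) ^ 2 = (e + 2) * (e + 2 - 1) + (e + 2 - 1) + 1 := by
        simp only [show e + 2 - 1 = e + 1 by omega]
        ring
      omega
    rw [h7, h5, h6, h2]
    ring
  · intro i hi hne
    rcases Nat.lt_or_ge i d with h | h
    · apply coeff_eq_zero_of_natDegree_lt
      have hi' : i < d - 1 := by omega
      have h8 : (C ((de d κ).coeff i) * nu d κ ^ i * de d κ ^ (d - i)).natDegree ≤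
          i * d + (d - i) * (d - 1) := by
        refine natDegree_mul_le.trans (Nat.add_le_add ?_ ?_)
        · refine (natDegree_C_mul_le _ _).trans (natDegree_pow_le.trans ?_)
          rw [hnud]
        · exact natDegree_pow_le.trans (Nat.mul_le_mul_left _ (by omega))
      refine lt_of_le_of_lt h8 ?_
      obtain ⟨j, hj⟩ : ∃ j, d = i + j + 2 := ⟨d - i - 2, by omega⟩
      subst hj
      have e1 : i + j + 2 - i = j + 2 := by omega
      have e2 : i + j + 2 - 1 = i + j + 1 := by omega
      rw [e1, e2]
      have e3 : (i + j + 2) ^ 2 = i * (i + j + 2) + (j + 2) * (i + j + 1) + (j + 2) := by ring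
      omega
    · have hid : i = d := by
        have := Finset.mem_range.1 hi
        omega
      subst hid
      rw [coeff_eq_zero_of_natDegree_lt hded]
      simp
  · intro h
    exact absurd (Finset.mem_range.2 (by omega)) h

end Pool.Agent.X328.TAU
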